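import Pool.Agent.T6.H92.Gendo.Final

/-!
# MP_38adfa_al, Q1: disproof

For a gendo-symmetric algebra `A` of finite global dimension `g` the injective dimension of `A`
as an `A ⊗ Aᵒᵖ`-module need not be `2 g`.

Over every field `K` there is a gendo-symmetric `K`-algebra `A` (of dimension `25`, the
endomorphism ring of a generator over the symmetric Nakayama algebra with three simple modules
and Loewy length `4`) with `gldim A = 4` and `idim A ≤ 6` as a bimodule.
-/

namespace Pool.Agent.Results.MP_38adfa_al.SymmetricNakayama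

open CategoryTheory TensorProduct Pool.Agent.T6.H92.Gendo

universe u

attribute [local instance] TensorProduct.Algebra.module in
/-- For every field `K` there is a finite dimensional gendo-symmetric `K`-algebra `A` with
`gldim A = 4` whose injective dimension as a module over `A ⊗ Aᵐᵒᵖ` is at most `6`, in particular
it is not `2 * 4 = 8`. -/
theorem result (K : Type u) [Field K] :
    ∃ (A : Type u) (_ : Ring A) (_ : Algebra K A),
      Module.Finite K A ∧ IsGendoSymmetric K A ∧ HasGlobalDimension A 4 ∧
      injectiveDimension (ModuleCat.of (A ⊗[K] Aᵐᵒᵖ) A) ≤ 6 ∧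
      injectiveDimension (ModuleCat.of (A ⊗[K] Aᵐᵒᵖ) A) ≠ ((2 * 4 : ℕ) : WithBot ℕ∞) := by
  have h6 : injectiveDimension (ModuleCat.of (Alg K PA ⊗[K] (Alg K PA)ᵐᵒᵖ) (Alg K PA)) ≤ 6 :=
    transfer K PA 6 (bimod_id K)
  refine ⟨Alg K PA, inferInstance, inferInstance, inferInstance, gendo K, gldim K, h6, ?_⟩
  intro h8
  rw [h8] at h6
  have : (8 : ℕ) ≤ 6 := by exact_mod_cast h6
  omega

end Pool.Agent.Results.MP_38adfa_al.SymmetricNakayama
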